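import Pool.Agent.Y492.AL.Stm

/-!
# Project AL, job AL-ANA: from bounds for the derivatives of the approximations to the
expansion of the limit.
-/

namespace Pool.Agent.Y895.AL

open Set Filter Topology

/-- First order expansion from a bound for the variation of the derivative. -/
theorem mvt_aux {f f' : ℝ → ℝ} {w K : ℝ} (hf : ∀ s, |s| ≤ w → HasDerivAt f (f' (1/2 + s)) (1/2 + s))
    (hK : ∀ s, |s| ≤ w → |f' (1/2 + s) - f' (1/2)| ≤ K) {t : ℝ} (ht : |t| ≤ w) :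
    |f (1/2 + t) - f (1/2) - f' (1/2) * t| ≤ K * |t| := by
  have hconv : Convex ℝ (Icc (-|t|) |t|) := convex_Icc _ _
  have h1 : ∀ s ∈ Icc (-|t|) |t|, HasDerivWithinAt (fun s => f (1/2 + s) - f' (1/2) * s)
      (f' (1/2 + s) - f' (1/2)) (Icc (-|t|) |t|) s := by
    intro s hs
    have hs' : |s| ≤ w := (abs_le.2 ⟨hs.1, hs.2⟩).trans ht
    have h2 : HasDerivAt (fun s => f (1/2 + s)) (f' (1/2 + s)) s :=
      HasDerivAt.comp_const_add (1/2) s (hf s hs')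
    have h4 : HasDerivAt (fun s => f' (1/2) * s) (f' (1/2)) s := by
      simpa using (hasDerivAt_id s).const_mul (f' (1/2))
    exact (h2.sub h4).hasDerivWithinAt
  have h5 : ∀ s ∈ Icc (-|t|) |t|, ‖f' (1/2 + s) - f' (1/2)‖ ≤ K := by
    intro s hs
    exact hK s ((abs_le.2 ⟨hs.1, hs.2⟩).trans ht)
  have h0 : (0:ℝ) ∈ Icc (-|t|) |t| := ⟨by simp, abs_nonneg t⟩
  have ht' : t ∈ Icc (-|t|) |t| := ⟨neg_abs_le t, le_abs_self t⟩
  have h6 := hconv.norm_image_sub_le_of_norm_hasDerivWithin_le h1 h5 h0 ht'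
  simp only [Real.norm_eq_abs, sub_zero, mul_zero, add_zero] at h6
  rw [show f (1/2 + t) - f (1/2) - f' (1/2) * t = f (1/2 + t) - f' (1/2) * t - f (1/2) by ring]
  exact h6

theorem rpow_tend {s : ℝ} (hs : 0 < s) :
    Tendsto (fun m : ℕ => (m:ℝ) ^ (-s)) atTop (𝓝 0) :=
  (tendsto_rpow_neg_atTop hs).comp tendsto_natCast_atTop_atTop

open Pool.Agent.Y492.AL in
theorem ana : S_ANA := by
  intro h g A B A' C b hC hb hb4 hg hhg hder hB hA
  -- the derivative of `h m`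
  set d : ℕ → ℝ := fun m => A m 1 (1/2) + B m 1 (1/2) with hd
  have hmain : ∀ m R : ℕ, 1 ≤ R → R ≤ m → ∀ t : ℝ, |t| ≤ b * (R:ℝ) ^ (-(3/4 : ℝ)) →
      |h m (1/2 + t) - h m (1/2) - d m * t| ≤
        3 * C * ((R:ℝ) ^ (-(1/2 : ℝ)) + (R:ℝ) ^ 2 * (m:ℝ) ^ (-(1/4 : ℝ))) * |t| := by
    intro m R hR hRm t ht
    have hR1 : (1:ℝ) ≤ R := by exact_mod_cast hR
    have hR0 : (0:ℝ) < R := by linarith
    have hm1 : (1:ℝ) ≤ m := by exact_mod_cast hR.trans hRm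
    have hm0 : (0:ℝ) < m := by linarith
    have hw : b * (R:ℝ) ^ (-(3/4 : ℝ)) ≤ 1/4 := by
      have : (R:ℝ) ^ (-(3/4 : ℝ)) ≤ 1 := Real.rpow_le_one_of_one_le_of_nonpos hR1 (by norm_num)
      nlinarith
    have hin : ∀ s : ℝ, |s| ≤ b * (R:ℝ) ^ (-(3/4 : ℝ)) → 0 ≤ 1/2 + s ∧ 1/2 + s ≤ 1 := by
      intro s hs
      have := abs_le.1 (hs.trans hw)
      constructor <;> linarith [this.1, this.2]
    have hdm : d m = A m R (1/2) + B m R (1/2) := by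
      have e1 := hder m 1 le_rfl (hR.trans hRm) (1/2) (by norm_num) (by norm_num)
      have e2 := hder m R hR hRm (1/2) (by norm_num) (by norm_num)
      exact e1.unique e2
    rw [hdm]
    refine mvt_aux (f := h m) (f' := fun q => A m R q + B m R q)
      (w := b * (R:ℝ) ^ (-(3/4 : ℝ))) ?_ ?_ ht
    · intro s hs
      exact hder m R hR hRm _ (hin s hs).1 (hin s hs).2
    · intro s hs
      have hBs := hB m R hR hRm (1/2 + s) (hin s hs).1 (hin s hs).2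
      have hB0 := hB m R hR hRm (1/2) (by norm_num) (by norm_num)
      have hAs : |A m R (1/2 + s) - A m R (1/2)| ≤
          C * ((R:ℝ) ^ (1/4 : ℝ) + (R:ℝ) ^ 2 * (m:ℝ) ^ (-(1/4 : ℝ))) * |s| := by
        have hconv : Convex ℝ (Icc (1/2 - |s|) (1/2 + |s|)) := convex_Icc _ _
        have hsub : ∀ q ∈ Icc (1/2 - |s|) (1/2 + |s|), |q - 1/2| ≤ b * (R:ℝ) ^ (-(3/4 : ℝ)) := by
          intro q hq
          refine le_trans (abs_le.2 ⟨?_, ?_⟩) hs
          · linarith [hq.1]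
          · linarith [hq.2]
        have h6 := hconv.norm_image_sub_le_of_norm_hasDerivWithin_le (f := A m R)
          (f' := A' m R) (C := C * ((R:ℝ) ^ (1/4 : ℝ) + (R:ℝ) ^ 2 * (m:ℝ) ^ (-(1/4 : ℝ))))
          (x := 1/2) (y := 1/2 + s)
          (fun q hq => (hA m R hR hRm q (hsub q hq)).1.hasDerivWithinAt)
          (fun q hq => (hA m R hR hRm q (hsub q hq)).2)
          ⟨by linarith [abs_nonneg s], by linarith [abs_nonneg s]⟩
          ⟨by linarith [neg_abs_le s], by linarith [le_abs_self s]⟩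
        simpa using h6
      set x : ℝ := (R:ℝ) ^ (-(1/2 : ℝ)) with hx
      set y : ℝ := (m:ℝ) ^ (-(1/4 : ℝ)) with hy
      have hx0 : 0 < x := Real.rpow_pos_of_pos hR0 _
      have hy0 : 0 < y := Real.rpow_pos_of_pos hm0 _
      have hs1 : (R:ℝ) ^ (1/4 : ℝ) * |s| ≤ b * x := by
        have e1 : (R:ℝ) ^ (1/4 : ℝ) * (R:ℝ) ^ (-(3/4 : ℝ)) = x := by
          rw [← Real.rpow_add hR0, hx]; norm_num
        have e2 : 0 < (R:ℝ) ^ (1/4 : ℝ) := Real.rpow_pos_of_pos hR0 _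
        calc (R:ℝ) ^ (1/4 : ℝ) * |s| ≤ (R:ℝ) ^ (1/4 : ℝ) * (b * (R:ℝ) ^ (-(3/4 : ℝ))) :=
              mul_le_mul_of_nonneg_left hs e2.le
          _ = b * ((R:ℝ) ^ (1/4 : ℝ) * (R:ℝ) ^ (-(3/4 : ℝ))) := by ring
          _ = b * x := by rw [e1]
      have hs2 : |s| ≤ 1/4 := hs.trans hw
      have hR2 : (1:ℝ) ≤ (R:ℝ)^2 := one_le_pow₀ hR1
      have hAs2 : |A m R (1/2 + s) - A m R (1/2)| ≤ C * (x + (R:ℝ)^2 * y) := by
        refine hAs.trans ?_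
        have : ((R:ℝ) ^ (1/4 : ℝ) + (R:ℝ) ^ 2 * y) * |s| ≤ x + (R:ℝ)^2 * y := by
          have e3 : (R:ℝ)^2 * y * |s| ≤ (R:ℝ)^2 * y * 1 :=
            mul_le_mul_of_nonneg_left (by linarith) (by positivity)
          nlinarith [abs_nonneg s]
        calc C * ((R:ℝ) ^ (1/4 : ℝ) + (R:ℝ) ^ 2 * y) * |s| =
            C * (((R:ℝ) ^ (1/4 : ℝ) + (R:ℝ) ^ 2 * y) * |s|) := by ring
          _ ≤ C * (x + (R:ℝ)^2 * y) := mul_le_mul_of_nonneg_left this hC.le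
      have hyR : y ≤ (R:ℝ)^2 * y := by nlinarith
      have hb1 : |B m R (1/2 + s)| ≤ C * (x + (R:ℝ)^2 * y) :=
        hBs.trans (mul_le_mul_of_nonneg_left (by linarith) hC.le)
      have hb2 : |B m R (1/2)| ≤ C * (x + (R:ℝ)^2 * y) :=
        hB0.trans (mul_le_mul_of_nonneg_left (by linarith) hC.le)
      have e4 : A m R (1/2 + s) + B m R (1/2 + s) - (A m R (1/2) + B m R (1/2)) =
          (A m R (1/2 + s) - A m R (1/2)) + B m R (1/2 + s) - B m R (1/2) := by ring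
      rw [e4]
      have h7 := abs_le.1 hAs2
      have h8 := abs_le.1 hb1
      have h9 := abs_le.1 hb2
      exact abs_le.2 ⟨by linarith [h7.1, h8.1, h9.2], by linarith [h7.2, h8.2, h9.1]⟩
  -- the limit function
  have hlim : ∀ m R : ℕ, 1 ≤ R → R ≤ m → ∀ t : ℝ, |t| ≤ b * (R:ℝ) ^ (-(3/4 : ℝ)) →
      |g (1/2 + t) - g (1/2) - d m * t| ≤
        3 * C * ((R:ℝ) ^ (-(1/2 : ℝ)) + (R:ℝ) ^ 2 * (m:ℝ) ^ (-(1/4 : ℝ))) * |t| +
          2 * (C * (m:ℝ) ^ (-(5/4 : ℝ))) := by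
    intro m R hR hRm t ht
    have hR1 : (1:ℝ) ≤ R := by exact_mod_cast hR
    have hw : b * (R:ℝ) ^ (-(3/4 : ℝ)) ≤ 1/4 := by
      have : (R:ℝ) ^ (-(3/4 : ℝ)) ≤ 1 := Real.rpow_le_one_of_one_le_of_nonpos hR1 (by norm_num)
      nlinarith
    have ht2 := abs_le.1 (ht.trans hw)
    have h1 := abs_le.1 (hmain m R hR hRm t ht)
    have h2 := abs_le.1 (hhg m (hR.trans hRm) (1/2 + t) (by linarith [ht2.1]) (by linarith [ht2.2]))
    have h3 := abs_le.1 (hhg m (hR.trans hRm) (1/2) (by norm_num) (by norm_num))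
    exact abs_le.2 ⟨by linarith [h1.1, h2.2, h3.1], by linarith [h1.2, h2.1, h3.2]⟩
  -- `d` is bounded
  obtain ⟨M, hM⟩ : ∃ M : ℝ, ∀ m : ℕ, 1 ≤ m → |d m| ≤ M := by
    refine ⟨(1 + 3 * C * (1 + 1) * b + 2 * (C * 1)) / b, fun m hm => ?_⟩
    have hm1 : (1:ℝ) ≤ m := by exact_mod_cast hm
    have h1 := hlim m 1 le_rfl hm b (by simp [abs_of_pos hb])
    have hb' : |b| = b := abs_of_pos hb
    rw [hb'] at h1
    have e1 : (m:ℝ) ^ (-(1/4 : ℝ)) ≤ 1 := Real.rpow_le_one_of_one_le_of_nonpos hm1 (by norm_num)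
    have e2 : (m:ℝ) ^ (-(5/4 : ℝ)) ≤ 1 := Real.rpow_le_one_of_one_le_of_nonpos hm1 (by norm_num)
    have e3 : ((1:ℕ):ℝ) ^ (-(1/2 : ℝ)) = 1 := by simp
    have e4 : ((1:ℕ):ℝ) ^ 2 = 1 := by simp
    rw [e3, e4, one_mul] at h1
    have h2 : 3 * C * (1 + (m:ℝ) ^ (-(1/4 : ℝ))) * b + 2 * (C * (m:ℝ) ^ (-(5/4 : ℝ))) ≤
        3 * C * (1 + 1) * b + 2 * (C * 1) := by gcongr
    have g1 := hg (1/2 + b) (by linarith) (by linarith)
    have g2 := hg (1/2) (by norm_num) (by norm_num)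
    have h3 := abs_le.1 (h1.trans h2)
    have h4 : |d m * b| ≤ 1 + 3 * C * (1 + 1) * b + 2 * (C * 1) :=
      abs_le.2 ⟨by linarith [h3.1, h3.2, g1.1, g1.2, g2.1, g2.2],
        by linarith [h3.1, h3.2, g1.1, g1.2, g2.1, g2.2]⟩
    rw [abs_mul, hb'] at h4
    rwa [le_div_iff₀ hb]
  -- a subsequence converges
  obtain ⟨c, -, φ, hφ, hc⟩ := tendsto_subseq_of_bounded (s := Metric.closedBall (0:ℝ) M)
    (x := fun m => d (m + 1)) Metric.isBounded_closedBall (fun m => by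
      rw [mem_closedBall_zero_iff]
      exact hM (m + 1) (by omega))
  have hφ1 : Tendsto (fun k => φ k + 1) atTop atTop :=
    (tendsto_add_atTop_nat 1).comp hφ.tendsto_atTop
  have hfin : ∀ R : ℕ, 1 ≤ R → ∀ t : ℝ, |t| ≤ b * (R:ℝ) ^ (-(3/4 : ℝ)) →
      |g (1/2 + t) - g (1/2) - c * t| ≤ 3 * C * (R:ℝ) ^ (-(1/2 : ℝ)) * |t| := by
    intro R hR t ht
    have l1 : Tendsto (fun k => |g (1/2 + t) - g (1/2) - d (φ k + 1) * t|) atTop
        (𝓝 |g (1/2 + t) - g (1/2) - c * t|) :=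
      (tendsto_const_nhds.sub (hc.mul_const t)).abs
    have l2 : Tendsto (fun k => 3 * C * ((R:ℝ) ^ (-(1/2 : ℝ)) +
        (R:ℝ) ^ 2 * ((φ k + 1 : ℕ):ℝ) ^ (-(1/4 : ℝ))) * |t| +
          2 * (C * ((φ k + 1 : ℕ):ℝ) ^ (-(5/4 : ℝ)))) atTop
        (𝓝 (3 * C * ((R:ℝ) ^ (-(1/2 : ℝ)) + (R:ℝ) ^ 2 * 0) * |t| + 2 * (C * 0))) := by
      have r1 := (rpow_tend (s := 1/4) (by norm_num)).comp hφ1
      have r2 := (rpow_tend (s := 5/4) (by norm_num)).comp hφ1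
      exact ((((r1.const_mul _).const_add _).const_mul _).mul_const _).add
        ((r2.const_mul _).const_mul _)
    have h3 := le_of_tendsto_of_tendsto l1 l2 (by
      filter_upwards [hφ1.eventually_ge_atTop R] with k hk
      exact hlim (φ k + 1) R hR hk t ht)
    simpa using h3
  refine ⟨c, (6 * C + 1 + |c|) * b ^ (-(5/3 : ℝ)), by positivity, fun t ht => ?_⟩
  have hbp : 0 < b ^ (-(5/3 : ℝ)) := Real.rpow_pos_of_pos hb _
  rcases eq_or_ne t 0 with rfl | ht0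
  · simp
  have htp : 0 < |t| := abs_pos.2 ht0
  have hbt : b ^ (-(5/3 : ℝ)) * |t| ^ (5/3 : ℝ) = (|t| / b) ^ (5/3 : ℝ) := by
    rw [Real.div_rpow htp.le hb.le, Real.rpow_neg hb.le]
    field_simp
  rcases le_or_gt |t| b with h1 | h1
  · set x : ℝ := (b / |t|) ^ (4/3 : ℝ) with hx
    have hq : 1 ≤ b / |t| := by rwa [one_le_div htp]
    have hq0 : 0 < b / |t| := by linarith
    have hx1 : 1 ≤ x := Real.one_le_rpow hq (by norm_num)
    have hx0 : 0 < x := by linarith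
    set R : ℕ := ⌊x⌋₊ with hR
    have hR1 : 1 ≤ R := Nat.one_le_floor_iff x |>.2 hx1
    have hRx : (R:ℝ) ≤ x := Nat.floor_le hx0.le
    have hRx2 : x / 2 ≤ R := by
      have h2 := Nat.lt_floor_add_one x
      have h3 : (1:ℝ) ≤ R := by exact_mod_cast hR1
      have : x < R + 1 := h2
      linarith
    have hR0 : (0:ℝ) < R := by exact_mod_cast hR1
    have e1 : |t| ≤ b * (R:ℝ) ^ (-(3/4 : ℝ)) := by
      have h2 : (R:ℝ) ^ (3/4 : ℝ) ≤ b / |t| := by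
        have h3 : (R:ℝ) ^ (3/4 : ℝ) ≤ x ^ (3/4 : ℝ) :=
          Real.rpow_le_rpow hR0.le hRx (by norm_num)
        have h4 : x ^ (3/4 : ℝ) = b / |t| := by
          rw [hx, ← Real.rpow_mul hq0.le]; norm_num
        rwa [h4] at h3
      rw [Real.rpow_neg hR0.le]
      have h5 : 0 < (R:ℝ) ^ (3/4 : ℝ) := Real.rpow_pos_of_pos hR0 _
      rw [le_div_iff₀ htp] at h2
      rw [← div_eq_mul_inv, le_div_iff₀ h5]
      linarith
    have h2 := hfin R hR1 t e1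
    have e2 : (R:ℝ) ^ (-(1/2 : ℝ)) ≤ 2 * (|t| / b) ^ (2/3 : ℝ) := by
      have h3 : (R:ℝ) ^ (-(1/2 : ℝ)) ≤ (x/2) ^ (-(1/2 : ℝ)) :=
        Real.rpow_le_rpow_of_nonpos (by positivity) hRx2 (by norm_num)
      have h4 : (x/2) ^ (-(1/2 : ℝ)) = x ^ (-(1/2 : ℝ)) * (2:ℝ) ^ (1/2 : ℝ) := by
        rw [Real.div_rpow hx0.le (by norm_num), Real.rpow_neg (x := (2:ℝ)) (by norm_num)]
        field_simp
      have h5 : x ^ (-(1/2 : ℝ)) = (|t| / b) ^ (2/3 : ℝ) := by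
        rw [hx, ← Real.rpow_mul hq0.le, show (4/3 * -(1/2) : ℝ) = -(2/3) by norm_num,
          Real.rpow_neg hq0.le, ← Real.inv_rpow hq0.le, inv_div]
      have h6 : (2:ℝ) ^ (1/2 : ℝ) ≤ 2 := by
        calc (2:ℝ) ^ (1/2 : ℝ) ≤ (2:ℝ) ^ (1:ℝ) :=
              Real.rpow_le_rpow_of_exponent_le (by norm_num) (by norm_num)
          _ = 2 := by simp
      have h7 : 0 ≤ (|t| / b) ^ (2/3 : ℝ) := by positivity
      rw [h4, h5] at h3
      nlinarith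
    have e3 : (|t| / b) ^ (2/3 : ℝ) * |t| ≤ (|t| / b) ^ (5/3 : ℝ) := by
      have h3 : (|t| / b) ^ (5/3 : ℝ) = (|t| / b) ^ (2/3 : ℝ) * (|t| / b) := by
        rw [show (5/3 : ℝ) = 2/3 + 1 by norm_num, Real.rpow_add (by positivity), Real.rpow_one]
      rw [h3]
      refine mul_le_mul_of_nonneg_left ?_ (by positivity)
      rw [le_div_iff₀ hb]
      nlinarith
    calc |g (1/2 + t) - g (1/2) - c * t| ≤ 3 * C * (R:ℝ) ^ (-(1/2 : ℝ)) * |t| := h2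
      _ ≤ 3 * C * (2 * (|t| / b) ^ (2/3 : ℝ)) * |t| := by gcongr
      _ = 6 * C * ((|t| / b) ^ (2/3 : ℝ) * |t|) := by ring
      _ ≤ 6 * C * (|t| / b) ^ (5/3 : ℝ) := by gcongr
      _ ≤ (6 * C + 1 + |c|) * (|t| / b) ^ (5/3 : ℝ) := by
          have : 0 ≤ (|t| / b) ^ (5/3 : ℝ) := by positivity
          nlinarith [abs_nonneg c]
      _ = (6 * C + 1 + |c|) * b ^ (-(5/3 : ℝ)) * |t| ^ (5/3 : ℝ) := by
          rw [mul_assoc, hbt]
  · have h2 : (1:ℝ) ≤ (|t| / b) ^ (5/3 : ℝ) :=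
      Real.one_le_rpow (by rw [one_le_div hb]; exact h1.le) (by norm_num)
    have ht2 := abs_le.1 ht
    have g1 := hg (1/2 + t) (by linarith [ht2.1]) (by linarith [ht2.2])
    have g2 := hg (1/2) (by norm_num) (by norm_num)
    have h3 : |c * t| ≤ |c| := by
      rw [abs_mul]
      nlinarith [abs_nonneg c]
    have h4 := abs_le.1 h3
    have h5 : |g (1/2 + t) - g (1/2) - c * t| ≤ 1 + |c| :=
      abs_le.2 ⟨by linarith [g1.1, g2.2, h4.2], by linarith [g1.2, g2.1, h4.1]⟩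
    calc |g (1/2 + t) - g (1/2) - c * t| ≤ 1 + |c| := h5
      _ ≤ (6 * C + 1 + |c|) * 1 := by linarith
      _ ≤ (6 * C + 1 + |c|) * (|t| / b) ^ (5/3 : ℝ) := by
          have : 0 ≤ 6 * C + 1 + |c| := by positivity
          exact mul_le_mul_of_nonneg_left h2 this
      _ = (6 * C + 1 + |c|) * b ^ (-(5/3 : ℝ)) * |t| ^ (5/3 : ℝ) := by
          rw [mul_assoc, hbt]

end Pool.Agent.Y895.AL
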